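import Mathlib
import Pool.Agent.H28.LimSol

set_option autoImplicit false

open scoped Topology
open Filter
open Pool.Agent.H28.LimSol

namespace Pool.Agent.Results.MP_2e7467_an.GAS

/-- `x` solves the recurrence; `x j` stands for `x_{j-k}`. -/
def IsSol (k : ℕ) (A : ℝ) (β B : Fin (k + 1) → ℝ) (x : ℕ → ℝ) : Prop :=
  (∀ j ≤ k, 0 ≤ x j) ∧
    ∀ n, x (n + k + 1) = (∑ i, β i * x (n + k - i)) / (A + ∑ i, B i * x (n + k - i))

/-- `p` is the least positive period of `x`. -/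
def PrimePeriod (x : ℕ → ℝ) (p : ℕ) : Prop :=
  0 < p ∧ (∀ n, x (n + p) = x n) ∧ ∀ q, 0 < q → (∀ n, x (n + q) = x n) → p ≤ q

/-- Zero is stable and attracts every solution. -/
def ZeroGAS (k : ℕ) (A : ℝ) (β B : Fin (k + 1) → ℝ) : Prop :=
  (∀ ε > 0, ∃ δ > 0, ∀ x, IsSol k A β B x → (∀ j ≤ k, x j < δ) → ∀ n, x n < ε) ∧
    ∀ x, IsSol k A β B x → Tendsto x atTop (𝓝 0)

section
variable {k : ℕ} {A : ℝ} {β B : Fin (k + 1) → ℝ}

lemma bound (hA : 0 < A) (hβ : ∀ i, 0 ≤ β i) (hB : ∀ i, 0 ≤ B i) (hs : A = ∑ i, β i)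
    {x : ℕ → ℝ} (hx : IsSol k A β B x) (M : ℝ) (hM : ∀ j ≤ k, x j ≤ M) :
    ∀ n, 0 ≤ x n ∧ x n ≤ M := by
  intro n
  induction n using Nat.strong_induction_on with
  | _ n ih =>
    by_cases hn : n ≤ k
    · exact ⟨hx.1 n hn, hM n hn⟩
    · obtain ⟨m, rfl⟩ : ∃ m, n = m + k + 1 := ⟨n - k - 1, by omega⟩
      have h1 : ∀ i : Fin (k + 1), 0 ≤ x (m + k - i) ∧ x (m + k - i) ≤ M :=
        fun i => ih _ (by omega)
      have hM0 : 0 ≤ M := (hx.1 0 (Nat.zero_le _)).trans (hM 0 (Nat.zero_le _))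
      have a1 : 0 ≤ ∑ i, β i * x (m + k - i) :=
        Finset.sum_nonneg fun i _ => mul_nonneg (hβ i) (h1 i).1
      have a2 : 0 ≤ ∑ i, B i * x (m + k - i) :=
        Finset.sum_nonneg fun i _ => mul_nonneg (hB i) (h1 i).1
      have a3 : ∑ i, β i * x (m + k - i) ≤ A * M := by
        rw [hs, Finset.sum_mul]
        exact Finset.sum_le_sum fun i _ => mul_le_mul_of_nonneg_left (h1 i).2 (hβ i)
      rw [hx.2 m]
      refine ⟨div_nonneg a1 (by linarith), ?_⟩
      rw [div_le_iff₀ (by linarith)]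
      nlinarith [mul_nonneg hM0 a2]

lemma periodic (hA : 0 < A) (hs : A = ∑ i, β i) (d : ℕ) (hd : 0 < d)
    (h1 : ∀ i : Fin (k + 1), β i ≠ 0 → d ∣ i + 1) (h2 : ∀ i : Fin (k + 1), B i ≠ 0 → ¬ d ∣ i + 1) :
    ∃ x, IsSol k A β B x ∧ PrimePeriod x d := by
  refine ⟨fun n => if d ∣ n then 1 else 0, ⟨fun j _ => by positivity, fun n => ?_⟩, hd,
    fun n => by simp [Nat.dvd_add_self_right], fun q hq h => ?_⟩
  · have e : ∀ i : Fin (k + 1), n + k + 1 = (n + k - i) + (i + 1) := fun i => by omega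
    by_cases hn : d ∣ n + k + 1
    · have s1 : ∑ i : Fin (k + 1), β i * (if d ∣ n + k - i then (1 : ℝ) else 0) = A := by
        rw [hs]
        refine Finset.sum_congr rfl fun i _ => ?_
        by_cases hi : β i = 0
        · simp [hi]
        · rw [if_pos, mul_one]
          rw [e i] at hn
          exact (Nat.dvd_add_iff_left (h1 i hi)).2 hn
      have s2 : ∑ i : Fin (k + 1), B i * (if d ∣ n + k - i then (1 : ℝ) else 0) = 0 := by
        refine Finset.sum_eq_zero fun i _ => ?_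
        by_cases hi : B i = 0
        · simp [hi]
        · rw [if_neg, mul_zero]
          intro h
          rw [e i] at hn
          exact h2 i hi ((Nat.dvd_add_iff_right h).2 hn)
      simp only [s1, s2, if_pos hn, add_zero, div_self hA.ne']
    · have s1 : ∑ i : Fin (k + 1), β i * (if d ∣ n + k - i then (1 : ℝ) else 0) = 0 := by
        refine Finset.sum_eq_zero fun i _ => ?_
        by_cases hi : β i = 0
        · simp [hi]
        · rw [if_neg, mul_zero]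
          intro h
          apply hn
          rw [e i]
          exact Nat.dvd_add h (h1 i hi)
      simp only [s1, if_neg hn, zero_div]
  · have := h 0
    simp only [zero_add, dvd_zero, if_true] at this
    by_cases hq' : d ∣ q
    · exact Nat.le_of_dvd hq hq'
    · simp [hq'] at this

lemma core (hA : 0 < A) (hβ : ∀ i, 0 ≤ β i) (hB : ∀ i, 0 ≤ B i) (hs : A = ∑ i, β i)
    (hB' : 0 < ∑ i, B i) (z : ℤ → ℝ) (L : ℝ) (hL : 0 < L) (h0 : z 0 = L)
    (hz : ∀ s, 0 ≤ z s ∧ z s ≤ L)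
    (hrec : ∀ s, z s * (A + ∑ i, B i * z (s - 1 - (i : ℕ))) = ∑ i, β i * z (s - 1 - (i : ℕ))) :
    ∃ x p, IsSol k A β B x ∧ PrimePeriod x p ∧ 2 ≤ p := by
  have key : ∀ s, z s = L → (∀ i : Fin (k + 1), β i ≠ 0 → z (s - 1 - (i : ℕ)) = L) ∧
      ∀ i : Fin (k + 1), B i ≠ 0 → z (s - 1 - (i : ℕ)) = 0 := by
    intro s h
    have e := hrec s
    rw [h] at e
    have a1 : ∀ i ∈ Finset.univ, 0 ≤ β i * (L - z (s - 1 - (i : ℕ))) :=
      fun i _ => mul_nonneg (hβ i) (sub_nonneg.2 (hz _).2)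
    have a2 : ∀ i ∈ Finset.univ, 0 ≤ B i * z (s - 1 - (i : ℕ)) :=
      fun i _ => mul_nonneg (hB i) (hz _).1
    have b1 := Finset.sum_nonneg a1
    have b2 := Finset.sum_nonneg a2
    have e1 : ∑ i, β i * (L - z (s - 1 - (i : ℕ))) = L * A - ∑ i, β i * z (s - 1 - (i : ℕ)) := by
      rw [hs, Finset.mul_sum, ← Finset.sum_sub_distrib]
      exact Finset.sum_congr rfl fun i _ => by ring
    have c2 : ∑ i, B i * z (s - 1 - (i : ℕ)) = 0 := by nlinarith
    have c1 : ∑ i, β i * (L - z (s - 1 - (i : ℕ))) = 0 := by rw [e1, ← e, c2]; ring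
    rw [Finset.sum_eq_zero_iff_of_nonneg a1] at c1
    rw [Finset.sum_eq_zero_iff_of_nonneg a2] at c2
    refine ⟨fun i hi => ?_, fun i hi => ?_⟩
    · have := (mul_eq_zero.1 (c1 i (Finset.mem_univ _))).resolve_left hi
      linarith
    · exact (mul_eq_zero.1 (c2 i (Finset.mem_univ _))).resolve_left hi
  let Q : ℤ → Prop := fun a => ∀ s, z s = L → z (s - a) = L
  have Qadd : ∀ a b, Q a → Q b → Q (a + b) := fun a b ha hb s h => by
    have := hb _ (ha s h)
    rwa [sub_sub] at this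
  have Q0 : Q 0 := fun s h => by simpa using h
  let H : AddSubgroup ℤ :=
    { carrier := {h | ∃ a b, Q a ∧ Q b ∧ h = a - b}
      add_mem' := by
        rintro _ _ ⟨a, b, ha, hb, rfl⟩ ⟨c, d, hc, hd, rfl⟩
        exact ⟨a + c, b + d, Qadd _ _ ha hc, Qadd _ _ hb hd, by ring⟩
      zero_mem' := ⟨0, 0, Q0, Q0, by ring⟩
      neg_mem' := by
        rintro _ ⟨a, b, ha, hb, rfl⟩
        exact ⟨b, a, hb, ha, by ring⟩ }
  have m1 : ∀ i : Fin (k + 1), β i ≠ 0 → ((i : ℕ) + 1 : ℤ) ∈ H := fun i hi =>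
    ⟨(i : ℕ) + 1, 0, fun s h => by
      have := (key s h).1 i hi
      rwa [show s - 1 - ((i : ℕ) : ℤ) = s - ((i : ℕ) + 1) by ring] at this, Q0, by ring⟩
  have m2 : ∀ i : Fin (k + 1), B i ≠ 0 → ((i : ℕ) + 1 : ℤ) ∉ H := by
    rintro i hi ⟨a, b, ha, hb, e⟩
    have e1 := ha 0 h0
    have e2 := (key _ (hb 0 h0)).2 i hi
    rw [show 0 - b - 1 - ((i : ℕ) : ℤ) = 0 - a by linarith] at e2
    linarith
  obtain ⟨g, hg⟩ := Int.subgroup_cyclic H
  have mem : ∀ n : ℕ, ((n : ℤ) + 1 ∈ H ↔ g.natAbs ∣ n + 1) := by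
    intro n
    rw [hg, AddSubgroup.mem_closure_singleton, ← Int.natCast_dvd_natCast, Int.natAbs_dvd]
    push_cast
    constructor
    · rintro ⟨c, hc⟩
      exact ⟨c, by rw [← hc, smul_eq_mul, mul_comm]⟩
    · rintro ⟨c, hc⟩
      exact ⟨c, by rw [hc, smul_eq_mul, mul_comm]⟩
  obtain ⟨i, -, hi⟩ := Finset.exists_ne_zero_of_sum_ne_zero (hs ▸ hA.ne' : ∑ i, β i ≠ 0)
  obtain ⟨j, -, hj⟩ := Finset.exists_ne_zero_of_sum_ne_zero hB'.ne'
  have d1 := (mem i).1 (m1 i hi)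
  have d2 := (mem j).not.1 (m2 j hj)
  have d0 : 0 < g.natAbs := Nat.pos_of_dvd_of_pos d1 (Nat.succ_pos _)
  obtain ⟨x, hx, hp⟩ := periodic (B := B) hA hs g.natAbs d0 (fun i hi => (mem i).1 (m1 i hi))
    (fun j hj => (mem j).not.1 (m2 j hj))
  refine ⟨x, _, hx, hp, ?_⟩
  by_contra hlt
  have : g.natAbs = 1 := by omega
  rw [this] at d2
  exact d2 (one_dvd _)

end

theorem result (k : ℕ) (A : ℝ) (β B : Fin (k + 1) → ℝ) (hA : 0 < A) (hβ : ∀ i, 0 ≤ β i)
    (hB : ∀ i, 0 ≤ B i) (_hβ' : 0 < ∑ i, β i) (hB' : 0 < ∑ i, B i) (hs : A = ∑ i, β i)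
    (hper : ¬ ∃ x p, IsSol k A β B x ∧ PrimePeriod x p ∧ 2 ≤ p) : ZeroGAS k A β B := by
  refine ⟨fun ε hε => ⟨ε / 2, by linarith, fun x hx h n => ?_⟩, fun x hx => ?_⟩
  · have := (bound hA hβ hB hs hx (ε / 2) (fun j hj => (h j hj).le) n).2
    linarith
  · have hb := bound hA hβ hB hs hx (∑ j ∈ Finset.range (k + 1), x j) (fun j hj =>
      Finset.single_le_sum (f := x) (fun i hi => hx.1 i (by simpa [Nat.lt_succ_iff] using hi))
        (by simpa [Nat.lt_succ_iff] using hj))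
    set M := ∑ j ∈ Finset.range (k + 1), x j
    have b0 : ∀ n, 0 ≤ x n := fun n => (hb n).1
    have b1 : ∀ n, x n ≤ M := fun n => (hb n).2
    obtain ⟨U, z, hU, h0, hz, hl⟩ := limsol_sup x 0 M b0 b1
    have hinf : 0 ≤ liminf x atTop :=
      le_liminf_of_le (bddU x M b1).isCoboundedUnder_ge (Eventually.of_forall b0)
    by_cases hL : limsup x atTop ≤ 0
    · exact tendsto_of_le_liminf_of_limsup_le hinf hL (bddU x M b1) (bddL x 0 b0)
    · exfalso
      apply hper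
      refine core hA hβ hB hs hB' z _ (not_le.1 hL) h0
        (fun s => ⟨hinf.trans (hl s).1, (hl s).2⟩) fun s => ?_
      have t1 := (hz s).mul ((tendsto_const_nhds (x := A)).add (tendsto_finsetSum Finset.univ
        fun (i : Fin (k + 1)) _ => (hz (s - 1 - (i : ℕ))).const_mul (B i)))
      have t2 := tendsto_finsetSum Finset.univ
        fun (i : Fin (k + 1)) _ => (hz (s - 1 - (i : ℕ))).const_mul (β i)
      refine tendsto_nhds_unique t1 (t2.congr' ?_)
      filter_upwards [hU (eventually_ge_atTop (s.natAbs + k + 1))] with n hn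
      obtain ⟨m, hm⟩ : ∃ m : ℕ, (n : ℤ) + s = m + k + 1 := ⟨((n : ℤ) + s - k - 1).toNat, by omega⟩
      have e1 : ((n : ℤ) + s).toNat = m + k + 1 := by omega
      have e2 : ∀ i : Fin (k + 1), ((n : ℤ) + (s - 1 - (i : ℕ))).toNat = m + k - i := by
        intro i
        have := i.2
        omega
      simp only [e1, e2]
      have a2 : 0 ≤ ∑ i, B i * x (m + k - i) :=
        Finset.sum_nonneg fun i _ => mul_nonneg (hB i) (b0 _)
      rw [hx.2 m, div_mul_cancel₀ _ (by linarith)]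

end Pool.Agent.Results.MP_2e7467_an.GAS
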